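import Pool.Agent.Helper8.DA.Defs

/-!
The constraint for `L`-valued closed forms: `d_B ⟨s, F⟩ = 0` gives `∑_a ∇ s_(r,a) ∧ F_a = 0`.
-/

set_option autoImplicit false

open scoped Manifold ContDiff

namespace Pool.Agent.Helper56.DA

open Pool.Agent.Helper8.DC Pool.Agent.Helper8.DA

/-- `d⟨φ, F⟩ = ∑ ∇φ_a ∧ F_a`, in components. -/
theorem pd_form_sum (A : E4 → Fin 4 → R3) (φ : E4 → R3) (U : Set E4) (hU : IsOpen U)
    (hA : ContDiffOn ℝ ∞ A U) (hφ : ContDiffOn ℝ ∞ φ U) (y : E4) (hy : y ∈ U) (l m n : Fin 4) :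
    pd l (fun z => Bundle.form A φ z m n) y + pd m (fun z => Bundle.form A φ z n l) y +
      pd n (fun z => Bundle.form A φ z l m) y =
    ∑ a, (cov A φ y l a * curv A y m n a + cov A φ y m a * curv A y n l a
      + cov A φ y n a * curv A y l m a) := by
  have hUy := hU.mem_nhds hy
  have hAd : ∀ z ∈ U, DifferentiableAt ℝ A z := fun z hz =>
    (hA.contDiffAt (hU.mem_nhds hz)).differentiableAt (by simp)
  have hφd : ∀ z ∈ U, DifferentiableAt ℝ φ z := fun z hz =>
    (hφ.contDiffAt (hU.mem_nhds hz)).differentiableAt (by simp)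
  have hAc : ∀ m a, ContDiffOn ℝ ∞ (fun z => A z m a) U := fun m a =>
    (contDiffOn_pi.1 ((contDiffOn_pi.1 hA) m)) a
  have hAcd : ∀ m a, DifferentiableAt ℝ (fun z => A z m a) y := fun m a =>
    ((hAc m a).contDiffAt hUy).differentiableAt (by simp)
  have hφc : ∀ a, DifferentiableAt ℝ (fun z => φ z a) y := fun a =>
    (differentiableAt_pi.1 (hφd y hy)) a
  have hpd : ∀ k m a, DifferentiableAt ℝ (fun z => pd k (fun w => A w m a) z) y := fun k m a =>
    ((ph_smooth_pd hU (hAc m a) k).contDiffAt hUy).differentiableAt (by simp)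
  -- second derivatives
  have hsym : ∀ k m n a, pd k (fun z => pd m (fun w => A w n a) z) y
      = pd m (fun z => pd k (fun w => A w n a) z) y := fun k m n a => ph_symm hU (hAc n a) hy k m
  set G : Fin 4 → Fin 4 → Fin 3 → E4 → ℝ := fun m n a z =>
    pd m (fun w => A w n a) z - pd n (fun w => A w m a) z + crossProduct (A z m) (A z n) a with hG
  have hGd : ∀ m n a, DifferentiableAt ℝ (G m n a) y := by
    intro m n a
    refine ((hpd m n a).sub (hpd n m a)).add ?_
    fin_cases a <;> simp [cross_apply] <;>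
      exact ((hAcd _ _).mul (hAcd _ _)).sub ((hAcd _ _).mul (hAcd _ _))
  have hform : ∀ l m n, pd l (fun z => Bundle.form A φ z m n) y
      = ∑ a, (pd l (fun z => φ z a) y * G m n a y + φ y a * pd l (G m n a) y) := by
    intro l m n
    have h1 : (fun z => Bundle.form A φ z m n) =ᶠ[nhds y]
        fun z => φ z 0 * G m n 0 z + φ z 1 * G m n 1 z + φ z 2 * G m n 2 z := by
      filter_upwards [hUy] with z hz
      simp only [Bundle.form, Fin.sum_univ_three, hG]
      rw [ph_curv (hAd z hz), ph_curv (hAd z hz), ph_curv (hAd z hz)]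
    rw [ph_pd_congr h1,
      ph_pd_add (((hφc 0).fun_mul (hGd m n 0)).fun_add ((hφc 1).fun_mul (hGd m n 1)))
      ((hφc 2).fun_mul (hGd m n 2)),
      ph_pd_add ((hφc 0).fun_mul (hGd m n 0)) ((hφc 1).fun_mul (hGd m n 1)),
      ph_pd_mul (hφc 0) (hGd m n 0), ph_pd_mul (hφc 1) (hGd m n 1),
      ph_pd_mul (hφc 2) (hGd m n 2), Fin.sum_univ_three]
  have hGpd : ∀ l m n a, pd l (G m n a) y = pd l (fun z => pd m (fun w => A w n a) z) y
      - pd l (fun z => pd n (fun w => A w m a) z) y
      + pd l (fun z => crossProduct (A z m) (A z n) a) y := by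
    intro l m n a
    have hcr : DifferentiableAt ℝ (fun z => crossProduct (A z m) (A z n) a) y := by
      fin_cases a <;> simp [cross_apply] <;>
        exact ((hAcd _ _).mul (hAcd _ _)).sub ((hAcd _ _).mul (hAcd _ _))
    rw [hG]
    simp only
    rw [ph_pd_add ((hpd m n a).fun_sub (hpd n m a)) hcr, ph_pd_sub (hpd m n a) (hpd n m a)]
  have hcr : ∀ l m n (b c : Fin 3), pd l (fun z => A z m b * A z n c - A z m c * A z n b) y
      = (pd l (fun z => A z m b) y * A y n c + A y m b * pd l (fun z => A z n c) y)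
      - (pd l (fun z => A z m c) y * A y n b + A y m c * pd l (fun z => A z n b) y) := by
    intro l m n b c
    rw [ph_pd_sub ((hAcd _ _).fun_mul (hAcd _ _)) ((hAcd _ _).fun_mul (hAcd _ _)),
      ph_pd_mul (hAcd _ _) (hAcd _ _), ph_pd_mul (hAcd _ _) (hAcd _ _)]
  rw [hform, hform, hform]
  simp only [Fin.sum_univ_three]
  simp only [hGpd]
  have e0 : ∀ k p q, pd k (fun z => crossProduct (A z p) (A z q) 0) y
      = pd k (fun z => A z p 1 * A z q 2 - A z p 2 * A z q 1) y := fun k p q => by
    simp [cross_apply]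
  have e1 : ∀ k p q, pd k (fun z => crossProduct (A z p) (A z q) 1) y
      = pd k (fun z => A z p 2 * A z q 0 - A z p 0 * A z q 2) y := fun k p q => by
    simp [cross_apply]
  have e2 : ∀ k p q, pd k (fun z => crossProduct (A z p) (A z q) 2) y
      = pd k (fun z => A z p 0 * A z q 1 - A z p 1 * A z q 0) y := fun k p q => by
    simp [cross_apply]
  simp only [e0, e1, e2, hcr]
  have c0 : ∀ k a, cov A φ y k a = pd k (fun z => φ z a) y + crossProduct (A y k) (φ y) a := by
    intro k a
    unfold cov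
    simp only [Pi.add_apply]
    rw [ph_pd_comp (hφd y hy)]
  simp only [c0, ph_curv (hAd y hy)]
  simp only [hG]
  simp only [cross_apply, Matrix.cons_val_zero, Matrix.cons_val_one, Matrix.cons_val_two,
    Matrix.head_cons, Matrix.tail_cons]
  rw [hsym l m n 0, hsym l m n 1, hsym l m n 2, hsym n l m 0, hsym n l m 1, hsym n l m 2,
    hsym m n l 0, hsym m n l 1, hsym m n l 2]
  ring

/-- The linear algebra: the cyclic sums vanish, hence the constraint holds. -/
theorem constr_of_cyclic (α : Fin 4 → R3) (F : Fin 4 → Fin 4 → R3)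
    (hsk : ∀ m n a, F m n a = - F n m a)
    (hkey : ∀ l m n : Fin 4, ∑ a, (α l a * F m n a + α m a * F n l a + α n a * F l m a) = 0) :
    Constr α F := by
  intro β
  have k012 := hkey 0 1 2
  have k013 := hkey 0 1 3
  have k023 := hkey 0 2 3
  have k123 := hkey 1 2 3
  simp only [wedge3, wedge, wed, cm1, Pool.Agent.Helper8.DC.cmp, Fin.sum_univ_three] at *
  rw [hsk 2 0, hsk 2 0, hsk 2 0] at k012
  rw [hsk 3 0, hsk 3 0, hsk 3 0] at k013
  rw [hsk 3 0, hsk 3 0, hsk 3 0] at k023
  rw [hsk 3 1, hsk 3 1, hsk 3 1] at k123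
  linear_combination (β 1) * k023 - (β 0) * k123 - (β 2) * k013 + (β 3) * k012

/-- `d_B ⟨s, F⟩ = 0` gives the constraint for every component. -/
theorem constrL {N : ℕ} (A : E4 → Fin 4 → R3) (B : E4 → Fin 4 → Matrix (Fin N) (Fin N) ℝ)
    (s : E4 → Fin N → R3) (U : Set E4) (hU : IsOpen U) (hA : ContDiffOn ℝ ∞ A U)
    (hs : ContDiffOn ℝ ∞ s U) (y : E4) (hy : y ∈ U) (hc : ClosedAt B (formL A s) y) (r : Fin N) :
    Constr (covL A B s y r) (curv A y) := by
  have hsr : ContDiffOn ℝ ∞ (fun z => s z r) U := (contDiffOn_pi.1 hs) r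
  have hsk : ∀ m n a, curv A y m n a = - curv A y n m a := by
    intro m n a
    unfold curv
    rw [← cross_anticomm (A y n) (A y m)]
    simp only [Pi.add_apply, Pi.sub_apply, Pi.neg_apply]
    ring
  refine constr_of_cyclic _ _ hsk ?_
  intro l m n
  have h := hc r l m n
  have h0 := pd_form_sum A (fun z => s z r) U hU hA hsr y hy l m n
  have hB : ∀ k p q : Fin 4, ∑ t, B y k r t * formL A s y t p q =
      ∑ a, (∑ t, B y k r t • s y t) a * curv A y p q a := by
    intro k p q
    simp only [formL, Bundle.form, Finset.sum_apply, Pi.smul_apply, smul_eq_mul, Finset.sum_mul,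
      Finset.mul_sum]
    rw [Finset.sum_comm]
    exact Finset.sum_congr rfl fun a _ => Finset.sum_congr rfl fun t _ => by ring
  have hc0 : ∀ k a, covL A B s y r k a = cov A (fun z => s z r) y k a +
      (∑ t, B y k r t • s y t) a := fun k a => rfl
  unfold dcov at h
  rw [hB, hB, hB] at h
  have h1 : pd l (fun z => formL A s z r m n) y = pd l (fun z => Bundle.form A (fun z => s z r) z m n) y :=
    rfl
  have h2 : pd m (fun z => formL A s z r n l) y = pd m (fun z => Bundle.form A (fun z => s z r) z n l) y :=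
    rfl
  have h3 : pd n (fun z => formL A s z r l m) y = pd n (fun z => Bundle.form A (fun z => s z r) z l m) y :=
    rfl
  rw [h1, h2, h3] at h
  simp only [hc0]
  simp only [Fin.sum_univ_three] at h h0 ⊢
  linear_combination h - h0

end Pool.Agent.Helper56.DA
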